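import Mathlib
import Pool.Agent.KFE.Fin2

open Representation Pool.Agent.KFV

namespace Pool.Agent.Results.MP_1993d0_al.LocalEndomorphisms

universe u v w z

/-- Endomorphisms of the source `L` of a simple module with vertex `Q` (`F` algebraically closed of
characteristic `p`, `G` any finite group).  Either some element of the normaliser of `Q`, none of
whose `p`-power powers is in `Q C(Q)`, fixes the isomorphism type of `L`, or every endomorphism of
`L` is a scalar up to relative traces from proper subgroups of `Q`, and then `L` is the trivial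
module if `2 dim L ≤ p`.  Consequently, if the outer automorphism group of the `p`-group `P` is a
`p`-group, then the trivial module is the only source of dimension at most `p / 2` of the simple
modules with vertex isomorphic to `P`, and it is one. -/
theorem result (F : Type u) [Field F] [IsAlgClosed F] (p : ℕ) [Fact p.Prime] [CharP F p] :
    (∀ (G : Type v) [Group G] [Finite G] (V : Type w) [AddCommGroup V] [Module F V]
      [FiniteDimensional F V] (ρ : Representation F G V) (Q : Subgroup G) (L : Type z)
      [AddCommGroup L] [Module F L] [FiniteDimensional F L] (σ : Representation F Q L),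
      ρ.IsIrreducible → IsVertexSource ρ Q σ →
      (∃ g ∈ Subgroup.normalizer (Q : Set G),
        (∃ θ : L →ₗ[F] L, Function.Bijective θ ∧
          ∀ q q' : Q, (q' : G) = g * q * g⁻¹ → θ ∘ₗ σ q = σ q' ∘ₗ θ) ∧
        ∀ k : ℕ, g ^ (p ^ k) ∉ Q ⊔ Subgroup.centralizer (Q : Set G)) ∨
      ((∀ θ : L →ₗ[F] L, Eqv σ σ θ → ∃ c : F, θ - c • LinearMap.id ∈ trI σ σ) ∧
        (2 * Module.finrank F L ≤ p → Module.finrank F L = 1 ∧ ∀ q x, σ q x = x))) ∧
    ∀ (P : Type v) [Group P] [Finite P], IsPGroup p P →
      (∀ φ : MulAut P, ∃ k : ℕ, φ ^ (p ^ k) ∈ (MulAut.conj : P →* MulAut P).range) →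
      (∀ (G : Type v) [Group G] [Finite G] (V : Type w) [AddCommGroup V] [Module F V]
        [FiniteDimensional F V] (ρ : Representation F G V) (Q : Subgroup G) (L : Type z)
        [AddCommGroup L] [Module F L] [FiniteDimensional F L] (σ : Representation F Q L),
        ρ.IsIrreducible → IsVertexSource ρ Q σ → Nonempty (Q ≃* P) →
        2 * Module.finrank F L ≤ p → Module.finrank F L = 1 ∧ ∀ q x, σ q x = x) ∧
      (Representation.trivial F P F).IsIrreducible ∧
      IsVertexSource (Representation.trivial F P F) (⊤ : Subgroup P)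
        (Representation.trivial F (⊤ : Subgroup P) F) := by
  refine ⟨?_, ?_⟩
  · intro G _ _ V _ _ _ ρ Q L _ _ _ σ hρ h
    by_cases hE : Pool.Agent.KFE.PStab p Q σ
    · exact Or.inr ⟨fun θ hθ => Pool.Agent.KFE.local_end_stab p ρ hρ Q σ h hE θ hθ,
        fun hd => Pool.Agent.KFE.small_source_stab p ρ hρ Q σ h hE hd⟩
    · left
      unfold Pool.Agent.KFE.PStab at hE
      push Not at hE
      obtain ⟨g, ⟨hg, θ, hθ, hθ'⟩, hk⟩ := hE
      exact ⟨g, hg, ⟨θ, hθ, hθ'⟩, hk⟩
  · intro P _ _ hP hA
    refine ⟨?_, Pool.Agent.KFE.trivial_vertexSource p P hP⟩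
    rintro G _ _ V _ _ _ ρ Q L _ _ _ σ hρ h ⟨e⟩ hd
    have hE' : Pool.Agent.KFE.PStab p Q σ :=
      Pool.Agent.KFE.pstab_of_aut p Q σ (fun φ _ => Pool.Agent.KFE.aut_transport p e hA φ)
    exact Pool.Agent.KFE.small_source_stab p ρ hρ Q σ h hE' hd

end Pool.Agent.Results.MP_1993d0_al.LocalEndomorphisms
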